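import Pool.Agent.Helper60_BSE.Mo3

/-!
# BSE, level k = 3, row IN3: the averages over the groups of the blocks
-/

open MeasureTheory Matrix Finset
open scoped ComplexConjugate

namespace Pool.Agent.BSE.H60

open Pool.Agent.Helper64_FR

variable {n : ℕ}

/-- the cubic form along a line is a polynomial of degree at most three -/
theorem cub_line (F : Fin n → Fin n → Fin n → ℝ) (α β : Fin n → ℝ) :
    ∃ a : ℕ → ℝ, ∀ u : ℝ, cub F (fun i => α i + u * β i) =
      ∑ m ∈ Finset.range 4, a m * u ^ m := by
  let S : (Fin n → Fin n → Fin n → ℝ) → ℝ := fun g => ∑ i, ∑ j, ∑ k, F i j k * g i j k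
  refine ⟨fun m => if m = 0 then S (fun i j k => α i * α j * α k) else
    if m = 1 then S (fun i j k => β i * α j * α k + α i * β j * α k + α i * α j * β k) else
    if m = 2 then S (fun i j k => β i * β j * α k + β i * α j * β k + α i * β j * β k) else
      S (fun i j k => β i * β j * β k), ?_⟩
  intro u
  simp only [Finset.sum_range_succ, Finset.sum_range_zero, if_true, one_ne_zero, if_false,
    OfNat.ofNat_ne_zero, OfNat.ofNat_ne_one, show (3 : ℕ) ≠ 2 by norm_num]
  simp only [S, cub]
  simp only [zero_add, pow_zero, mul_one, Finset.sum_mul]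
  rw [← Finset.sum_add_distrib, ← Finset.sum_add_distrib, ← Finset.sum_add_distrib]
  refine Finset.sum_congr rfl fun i _ => ?_
  rw [← Finset.sum_add_distrib, ← Finset.sum_add_distrib, ← Finset.sum_add_distrib]
  refine Finset.sum_congr rfl fun j _ => ?_
  rw [← Finset.sum_add_distrib, ← Finset.sum_add_distrib, ← Finset.sum_add_distrib]
  refine Finset.sum_congr rfl fun k _ => ?_
  ring

theorem rep_line (p q : Fin n) (c : Fin n → ℝ) (u : ℝ) :
    rep p q u c = fun i => (if i = p ∨ i = q then c q else c i) +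
      u * (if i = p ∨ i = q then c p - c q else 0) := by
  funext i
  unfold rep
  by_cases h : i = p ∨ i = q
  · simp only [if_pos h]
    ring
  · simp only [if_neg h]
    ring

theorem int_interval (a : ℕ → ℝ) :
    ∫ u in (0 : ℝ)..1, ∑ m ∈ Finset.range 4, a m * u ^ m =
      ∑ m ∈ Finset.range 4, a m * (1 / ((m : ℝ) + 1)) := by
  rw [intervalIntegral.integral_finsetSum]
  · refine Finset.sum_congr rfl fun m _ => ?_
    rw [intervalIntegral.integral_const_mul, integral_pow]
    simp
  · intro m _
    exact (continuous_const.mul (continuous_pow m)).intervalIntegrable _ _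

/-- the averaging map on a block of two elements -/
theorem TB_pair {p q : Fin n} (hpq : p ≠ q) (hne : ({p, q} : Finset (Fin n)).Nonempty)
    (A : UU n) (hA : A ∈ UB ({p, q} : Finset (Fin n))) (c : Fin n → ℝ) :
    TB ({p, q} : Finset (Fin n)) A c =
      rep p q (‖(A : Matrix (Fin n) (Fin n) ℂ) p (({p, q} : Finset (Fin n)).min' hne)‖ ^ 2) c := by
  funext i
  unfold TB rep
  by_cases h : i ∈ ({p, q} : Finset (Fin n))
  · have h' : i = p ∨ i = q := by simpa using h
    rw [dif_pos h, if_pos h', Finset.sum_pair hpq,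
      sq_add hpq (Finset.min'_mem _ hne) A hA]
  · have h' : ¬ (i = p ∨ i = q) := by simpa using h
    rw [dif_neg h, if_neg h']

/-- the averaging map on a block of at most one element -/
theorem TB_one {B : Finset (Fin n)} (hB : B.card ≤ 1) (A : UU n) (hA : A ∈ UB B)
    (c : Fin n → ℝ) : TB B A c = c := by
  funext i
  unfold TB
  by_cases h : i ∈ B
  · rw [dif_pos h]
    have hB' := Finset.card_le_one.mp hB
    have h1 : ∀ j ∈ B, ‖(A : Matrix (Fin n) (Fin n) ℂ) j (B.min' ⟨i, h⟩)‖ ^ 2 * c j =
        ‖(A : Matrix (Fin n) (Fin n) ℂ) j (B.min' ⟨i, h⟩)‖ ^ 2 * c i := by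
      intro j hj
      rw [hB' j hj i h]
    rw [Finset.sum_congr rfl h1, ← Finset.sum_mul,
      Pool.Agent.BSE.H65.col_sum B A hA _ (Finset.min'_mem _ _), one_mul]
  · rw [dif_neg h]

theorem cub_const (F : Fin n → Fin n → Fin n → ℝ) (hF : Tin3 F) (t : ℝ) :
    cub F (fun _ => t) = 0 := by
  unfold cub
  rw [Finset.sum_comm]
  refine Finset.sum_eq_zero fun j _ => ?_
  rw [Finset.sum_comm]
  refine Finset.sum_eq_zero fun k _ => ?_
  rw [← Finset.sum_mul, hF j k, zero_mul]

/-- the averaging map on the full block has constant values -/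
theorem TB_univ (A : UU n) (c : Fin n → ℝ) :
    ∃ t : ℝ, TB (Finset.univ : Finset (Fin n)) A c = fun _ => t := by
  by_cases h : (Finset.univ : Finset (Fin n)).Nonempty
  · refine ⟨∑ j ∈ Finset.univ, ‖(A : Matrix (Fin n) (Fin n) ℂ) j
      ((Finset.univ : Finset (Fin n)).min' h)‖ ^ 2 * c j, ?_⟩
    funext i
    unfold TB
    rw [dif_pos (Finset.mem_univ i)]
  · refine ⟨0, ?_⟩
    funext i
    exact absurd ⟨i, Finset.mem_univ i⟩ h

/-- IN3. -/
theorem in3 (hm : MO3Stmt) (inv : INVStmt) : IN3Stmt := by
  intro n F _ hT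
  refine ⟨?_, ?_, ?_⟩
  · intro B hB c
    have := (inv n B).1
    have h1 : ∀ A : UB B, cub F (TB B (A : UU n) c) = cub F c := by
      intro A
      rw [TB_one hB A.1 A.2]
    simp only [h1, integral_const, probReal_univ, smul_eq_mul, one_mul]
  · intro p q hpq c
    have := (inv n ({p, q} : Finset (Fin n))).1
    have hne : ({p, q} : Finset (Fin n)).Nonempty := ⟨p, by simp⟩
    obtain ⟨a, ha⟩ := cub_line F (fun i => if i = p ∨ i = q then c q else c i)
      (fun i => if i = p ∨ i = q then c p - c q else 0)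
    have h1 : ∀ u : ℝ, cub F (rep p q u c) = ∑ m ∈ Finset.range 4, a m * u ^ m := by
      intro u
      rw [rep_line p q c u]
      exact ha u
    have h2 : ∀ A : UB ({p, q} : Finset (Fin n)),
        cub F (TB ({p, q} : Finset (Fin n)) (A : UU n) c) =
        ∑ m ∈ Finset.range 4, a m * sq {p, q} p (({p, q} : Finset (Fin n)).min' hne) A ^ m := by
      intro A
      rw [TB_pair hpq hne A.1 A.2, h1]
      rfl
    rw [integral_congr_ae (Filter.Eventually.of_forall h2), int_poly]
    simp only [h1]
    rw [int_interval]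
    refine Finset.sum_congr rfl fun m hm' => ?_
    have hm3 : m ≤ 3 := by
      have := Finset.mem_range.mp hm'
      omega
    have h3 := (hm n p q _ hpq (Finset.min'_mem _ hne)).2 m hm3
    congr 1
  · intro c
    have h1 : ∀ A : UB (Finset.univ : Finset (Fin n)),
        cub F (TB (Finset.univ : Finset (Fin n)) (A : UU n) c) = 0 := by
      intro A
      obtain ⟨t, ht⟩ := TB_univ (A : UU n) c
      rw [ht, cub_const F hT]
    simp only [h1, integral_zero]

end Pool.Agent.BSE.H60
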