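import Pool.Agent.BSE.Stmts3
import Pool.Agent.Helper65_BSE.OSC

/-!
# BSE, level k = 3, row MO3: moments of one squared entry on a block of two elements
-/

open MeasureTheory Matrix Finset
open scoped ComplexConjugate

namespace Pool.Agent.BSE.H60

open Pool.Agent.Helper64_FR

variable {n : ℕ}

/-- the squared entry -/
noncomputable def sq (B : Finset (Fin n)) (p b : Fin n) (A : UB B) : ℝ :=
  ‖((A : UU n) : Matrix (Fin n) (Fin n) ℂ) p b‖ ^ 2

theorem cont_sq (B : Finset (Fin n)) (p b : Fin n) : Continuous (sq B p b) := by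
  have h1 : Continuous fun A : UU n => (A : Matrix (Fin n) (Fin n) ℂ) p b :=
    (continuous_apply_apply p b).comp continuous_subtype_val
  exact ((h1.comp continuous_subtype_val).norm).pow 2

theorem int_cont (B : Finset (Fin n)) [IsProbabilityMeasure (haarB B)] {f : UB B → ℝ}
    (hf : Continuous f) : Integrable f (haarB B) :=
  hf.integrable_of_hasCompactSupport (HasCompactSupport.of_compactSpace f)

theorem sq_add {p q b : Fin n} (hpq : p ≠ q) (hb : b ∈ ({p, q} : Finset (Fin n))) (A : UU n)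
    (hA : A ∈ UB ({p, q} : Finset (Fin n))) :
    ‖(A : Matrix (Fin n) (Fin n) ℂ) q b‖ ^ 2 = 1 - ‖(A : Matrix (Fin n) (Fin n) ℂ) p b‖ ^ 2 := by
  have h := Pool.Agent.BSE.H65.col_sum ({p, q} : Finset (Fin n)) A hA b hb
  rw [Finset.sum_pair hpq] at h
  linarith

theorem q4_val {p q : Fin n} (hpq : p ≠ q) (t : ℝ) :
    q4 ({p, q} : Finset (Fin n)) (fun j => if j = p then 1 + t else 1) =
      1 + 2 * t + 2 * t ^ 2 + t ^ 3 + t ^ 4 / 5 := by
  unfold q4
  rw [Finset.card_pair hpq]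
  simp only [Finset.sum_pair hpq, if_true, if_neg hpq.symm]
  push_cast
  ring

/-- integral of a polynomial in the squared entry -/
theorem int_poly (B : Finset (Fin n)) (p b : Fin n) [IsProbabilityMeasure (haarB B)] (k : ℕ)
    (c : ℕ → ℝ) : ∫ A, (∑ i ∈ Finset.range k, c i * sq B p b A ^ i) ∂(haarB B) =
      ∑ i ∈ Finset.range k, c i * ∫ A, sq B p b A ^ i ∂(haarB B) := by
  rw [integral_finsetSum]
  · refine Finset.sum_congr rfl fun i _ => ?_
    rw [integral_const_mul]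
  · intro i _
    exact int_cont _ (continuous_const.mul ((cont_sq B p b).pow i))

theorem expand {p q b : Fin n} (hpq : p ≠ q) (hb : b ∈ ({p, q} : Finset (Fin n)))
    [IsProbabilityMeasure (haarB ({p, q} : Finset (Fin n)))] (t : ℝ) :
    ∫ A : UB ({p, q} : Finset (Fin n)), (∑ j ∈ ({p, q} : Finset (Fin n)),
      ‖((A : UU n) : Matrix (Fin n) (Fin n) ℂ) j b‖ ^ 2 *
        (if j = p then 1 + t else 1)) ^ 4 ∂(haarB ({p, q} : Finset (Fin n))) =
      1 + 4 * t * (∫ A, sq {p, q} p b A ^ 1 ∂(haarB ({p, q} : Finset (Fin n)))) +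
        6 * t ^ 2 * (∫ A, sq {p, q} p b A ^ 2 ∂(haarB ({p, q} : Finset (Fin n)))) +
        4 * t ^ 3 * (∫ A, sq {p, q} p b A ^ 3 ∂(haarB ({p, q} : Finset (Fin n)))) +
        t ^ 4 * (∫ A, sq {p, q} p b A ^ 4 ∂(haarB ({p, q} : Finset (Fin n)))) := by
  have h1 : ∀ A : UB ({p, q} : Finset (Fin n)), (∑ j ∈ ({p, q} : Finset (Fin n)),
      ‖((A : UU n) : Matrix (Fin n) (Fin n) ℂ) j b‖ ^ 2 *
        (if j = p then 1 + t else 1)) ^ 4 =
      ∑ i ∈ Finset.range 5, ((Nat.choose 4 i : ℝ) * t ^ i) * sq {p, q} p b A ^ i := by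
    intro A
    rw [Finset.sum_pair hpq, sq_add hpq hb A.1 A.2]
    simp only [if_true, if_neg hpq.symm, Finset.sum_range_succ, Finset.sum_range_zero,
      show Nat.choose 4 0 = 1 from rfl, show Nat.choose 4 1 = 4 from rfl,
      show Nat.choose 4 2 = 6 from rfl, show Nat.choose 4 3 = 4 from rfl,
      show Nat.choose 4 4 = 1 from rfl]
    unfold sq
    push_cast
    ring
  rw [integral_congr_ae (Filter.Eventually.of_forall h1),
    int_poly _ p b 5 fun i => (Nat.choose 4 i : ℝ) * t ^ i]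
  simp only [Finset.sum_range_succ, Finset.sum_range_zero,
      show Nat.choose 4 0 = 1 from rfl, show Nat.choose 4 1 = 4 from rfl,
      show Nat.choose 4 2 = 6 from rfl, show Nat.choose 4 3 = 4 from rfl,
      show Nat.choose 4 4 = 1 from rfl]
  simp only [pow_zero, integral_const, probReal_univ, smul_eq_mul, mul_one]
  push_cast
  ring

/-- MO3. -/
theorem mo3 (mo2 : MO2Stmt) (inv : INVStmt) : MO3Stmt := by
  intro n p q b hpq hb
  have := (inv n ({p, q} : Finset (Fin n))).1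
  refine ⟨fun A hA => sq_add hpq hb A hA, ?_⟩
  have key : ∀ t : ℝ, 1 + 4 * t * (∫ A, sq {p, q} p b A ^ 1 ∂(haarB ({p, q} : Finset (Fin n)))) +
        6 * t ^ 2 * (∫ A, sq {p, q} p b A ^ 2 ∂(haarB ({p, q} : Finset (Fin n)))) +
        4 * t ^ 3 * (∫ A, sq {p, q} p b A ^ 3 ∂(haarB ({p, q} : Finset (Fin n)))) +
        t ^ 4 * (∫ A, sq {p, q} p b A ^ 4 ∂(haarB ({p, q} : Finset (Fin n)))) =
      1 + 2 * t + 2 * t ^ 2 + t ^ 3 + t ^ 4 / 5 := by
    intro t
    rw [← expand hpq hb t, ← q4_val hpq t]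
    exact mo2 n {p, q} b hb (fun j => if j = p then 1 + t else 1)
  have k1 := key 1
  have k2 := key (-1)
  have k3 := key 2
  have k4 := key (-2)
  intro m hm
  change ∫ A, sq {p, q} p b A ^ m ∂(haarB ({p, q} : Finset (Fin n))) = 1 / ((m : ℝ) + 1)
  interval_cases m
  · simp
  · norm_num at k1 k2 k3 k4 ⊢
    linarith
  · norm_num at k1 k2 k3 k4 ⊢
    linarith
  · norm_num at k1 k2 k3 k4 ⊢
    linarith

end Pool.Agent.BSE.H60
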