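import Pool.Agent.BSE.Stmts5

/-!
# BSE, stage 3, row AV4: average of the trilinear form over `U_B`
-/

set_option autoImplicit false

namespace Pool.Agent.BSE.H60d

open Pool.Agent.BSE Pool.Agent.Helper64_FR Finset MeasureTheory

variable {n : ℕ}

theorem continuous_TB (B : Finset (Fin n)) (c : Fin n → ℝ) :
    Continuous fun A : UB B => TB B (A : UU n) c := by
  refine continuous_pi fun i => ?_
  unfold TB
  by_cases h : i ∈ B
  · simp only [h, dif_pos]
    refine continuous_finsetSum _ fun j _ => Continuous.mul (Continuous.pow (Continuous.norm ?_) 2)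
      continuous_const
    exact (continuous_apply_apply j _).comp (continuous_subtype_val.comp continuous_subtype_val)
  · simp only [h, dif_neg, not_false_iff]
    exact continuous_const

theorem int_cont (B : Finset (Fin n)) {f : UB B → ℝ} (hf : Continuous f) :
    Integrable f (haarB B) := by
  unfold haarB
  exact hf.integrable_of_hasCompactSupport (HasCompactSupport.of_compactSpace f)

theorem int_const (B : Finset (Fin n)) (r : ℝ) : ∫ _A : UB B, r ∂(haarB B) = r := by
  have h : haarB B Set.univ = 1 := by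
    unfold haarB
    exact Measure.haarMeasure_self
  rw [integral_const, Measure.real, h]
  simp

theorem rb_adj (B : Finset (Fin n)) (g h : Fin n → ℝ) :
    ∑ i, g i * rb B h i = ∑ i, rb B g i * h i := by
  rw [← Finset.sum_add_sum_compl B, ← Finset.sum_add_sum_compl B (fun i => rb B g i * h i)]
  have e1 : ∑ i ∈ B, rb B g i * h i = (∑ j ∈ B, g j) * ∑ i ∈ B, h i := by
    rw [Finset.mul_sum]
    refine Finset.sum_congr rfl fun i hi => ?_
    simp only [rb, if_pos hi]
  have e2 : ∑ i ∈ B, g i * rb B h i = (∑ j ∈ B, g j) * ∑ i ∈ B, h i := by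
    rw [Finset.sum_mul]
    refine Finset.sum_congr rfl fun i hi => ?_
    simp only [rb, if_pos hi]
  have e3 : ∑ i ∈ Bᶜ, g i * rb B h i = ∑ i ∈ Bᶜ, rb B g i * h i := by
    refine Finset.sum_congr rfl fun i hi => ?_
    have hi' : i ∉ B := Finset.mem_compl.1 hi
    simp only [rb, if_neg hi']
  rw [e1, e2, e3]

theorem rb_adj3 (B : Finset (Fin n)) (H φ : Fin n → Fin n → Fin n → ℝ) :
    ∑ i, ∑ j, ∑ k, H i j k *
      rb B (fun i' => rb B (fun j' => rb B (fun k' => φ i' j' k') k) j) i =
    ∑ i, ∑ j, ∑ k, rb B (fun k' => rb B (fun j' => rb B (fun i' => H i' j' k') i) j) k *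
      φ i j k := by
  calc ∑ i, ∑ j, ∑ k, H i j k *
      rb B (fun i' => rb B (fun j' => rb B (fun k' => φ i' j' k') k) j) i
      = ∑ j, ∑ k, ∑ i, H i j k *
          rb B (fun i' => rb B (fun j' => rb B (fun k' => φ i' j' k') k) j) i := by
        rw [Finset.sum_comm]
        refine Finset.sum_congr rfl fun j _ => ?_
        rw [Finset.sum_comm]
    _ = ∑ j, ∑ k, ∑ i, rb B (fun i' => H i' j k) i *
          rb B (fun j' => rb B (fun k' => φ i j' k') k) j := by
        refine Finset.sum_congr rfl fun j _ => Finset.sum_congr rfl fun k _ => ?_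
        exact rb_adj B (fun i => H i j k)
          (fun i' => rb B (fun j' => rb B (fun k' => φ i' j' k') k) j)
    _ = ∑ i, ∑ k, ∑ j, rb B (fun i' => H i' j k) i *
          rb B (fun j' => rb B (fun k' => φ i j' k') k) j := by
        rw [Finset.sum_comm]
        have h1 : ∀ k, ∑ j, ∑ i, rb B (fun i' => H i' j k) i *
            rb B (fun j' => rb B (fun k' => φ i j' k') k) j =
            ∑ i, ∑ j, rb B (fun i' => H i' j k) i *
            rb B (fun j' => rb B (fun k' => φ i j' k') k) j := fun k => Finset.sum_comm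
        rw [Finset.sum_congr rfl fun k _ => h1 k, Finset.sum_comm]
    _ = ∑ i, ∑ k, ∑ j, rb B (fun j' => rb B (fun i' => H i' j' k) i) j *
          rb B (fun k' => φ i j k') k := by
        refine Finset.sum_congr rfl fun i _ => Finset.sum_congr rfl fun k _ => ?_
        exact rb_adj B (fun j => rb B (fun i' => H i' j k) i)
          (fun j' => rb B (fun k' => φ i j' k') k)
    _ = ∑ i, ∑ j, ∑ k, rb B (fun j' => rb B (fun i' => H i' j' k) i) j *
          rb B (fun k' => φ i j k') k := by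
        refine Finset.sum_congr rfl fun i _ => ?_
        rw [Finset.sum_comm]
    _ = _ := by
        refine Finset.sum_congr rfl fun i _ => Finset.sum_congr rfl fun j _ => ?_
        exact rb_adj B (fun k => rb B (fun j' => rb B (fun i' => H i' j' k) i) j)
          (fun k' => φ i j k')

theorem TB_mem {B : Finset (Fin n)} (hB : B.Nonempty) {i : Fin n} (hi : i ∈ B) (A : UU n)
    (c : Fin n → ℝ) : TB B A c i =
      ∑ j ∈ B, ‖(A : Matrix (Fin n) (Fin n) ℂ) j (B.min' hB)‖ ^ 2 * c j := by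
  unfold TB
  rw [dif_pos hi]

theorem TB_not {B : Finset (Fin n)} {i : Fin n} (hi : i ∉ B) (A : UU n)
    (c : Fin n → ℝ) : TB B A c i = c i := by
  unfold TB
  rw [dif_neg hi]

theorem sum_m2 (B : Finset (Fin n)) (a b : Fin n → ℝ) :
    ∑ j ∈ B, ∑ i ∈ B, m2 i j * (a i * b j) =
      (∑ i ∈ B, a i) * (∑ i ∈ B, b i) + ∑ i ∈ B, a i * b i := by
  have h1 : ∀ j ∈ B, ∑ i ∈ B, m2 i j * (a i * b j) = (∑ i ∈ B, a i) * b j + a j * b j := by
    intro j hj
    have h2 : ∀ i, m2 i j * (a i * b j) = a i * b j + if i = j then a i * b j else 0 := by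
      intro i
      unfold m2
      split_ifs <;> ring
    rw [Finset.sum_congr rfl fun i _ => h2 i, Finset.sum_add_distrib, ← Finset.sum_mul,
      Finset.sum_ite_eq' B j, if_pos hj]
  rw [Finset.sum_congr rfl h1, Finset.sum_add_distrib, ← Finset.mul_sum]

theorem sum_m6 (B : Finset (Fin n)) (a b c : Fin n → ℝ) :
    ∑ k ∈ B, ∑ j ∈ B, ∑ i ∈ B, m6 i j k * (a i * b j * c k) =
      (∑ i ∈ B, a i) * (∑ i ∈ B, b i) * (∑ i ∈ B, c i) +
        (∑ j ∈ B, a j * b j) * (∑ j ∈ B, c j) + (∑ j ∈ B, a j * c j) * (∑ j ∈ B, b j) +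
        (∑ j ∈ B, b j * c j) * (∑ j ∈ B, a j) + 2 * ∑ j ∈ B, a j * b j * c j := by
  have h1 : ∀ k ∈ B, ∀ j ∈ B, ∑ i ∈ B, m6 i j k * (a i * b j * c k) =
      (∑ i ∈ B, a i) * b j * c k + a j * b j * c k +
        (if j = k then (∑ i ∈ B, a i) * b j * c k else 0) + a k * b j * c k +
        (if j = k then 2 * (a j * b j * c k) else 0) := by
    intro k hk j hj
    have h2 : ∀ i, m6 i j k * (a i * b j * c k) = a i * (b j * c k) +
        (if i = j then a i * b j * c k else 0) +
        a i * (if j = k then b j * c k else 0) + (if i = k then a i * b j * c k else 0) +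
        (if i = j then (if j = k then 2 * (a i * b j * c k) else 0) else 0) := by
      intro i
      unfold m6
      split_ifs with h3 h4 h5 h6 h7 h8 h9 h10 h11 <;>
        first | ring1 | (exfalso; simp_all)
    rw [Finset.sum_congr rfl fun i _ => h2 i, Finset.sum_add_distrib, Finset.sum_add_distrib,
      Finset.sum_add_distrib, Finset.sum_add_distrib, ← Finset.sum_mul, ← Finset.sum_mul,
      Finset.sum_ite_eq' B j, Finset.sum_ite_eq' B k, Finset.sum_ite_eq' B j, if_pos hj, if_pos hk,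
      if_pos hj]
    split_ifs <;> ring
  have h6 : ∀ k ∈ B, ∑ j ∈ B, ∑ i ∈ B, m6 i j k * (a i * b j * c k) =
      ((∑ i ∈ B, a i) * (∑ j ∈ B, b j)) * c k + (∑ j ∈ B, a j * b j) * c k +
        (∑ i ∈ B, a i) * (b k * c k) + (∑ j ∈ B, b j) * (a k * c k) +
        2 * (a k * b k * c k) := by
    intro k hk
    rw [Finset.sum_congr rfl fun j hj => h1 k hk j hj, Finset.sum_add_distrib,
      Finset.sum_add_distrib, Finset.sum_add_distrib, Finset.sum_add_distrib,
      Finset.sum_ite_eq' B k, Finset.sum_ite_eq' B k, if_pos hk, if_pos hk]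
    have e1 : ∑ j ∈ B, (∑ i ∈ B, a i) * b j * c k = (∑ i ∈ B, a i) * (∑ j ∈ B, b j) * c k := by
      rw [Finset.mul_sum, Finset.sum_mul]
    have e2 : ∑ j ∈ B, a j * b j * c k = (∑ j ∈ B, a j * b j) * c k := by
      rw [Finset.sum_mul]
    have e3 : ∑ j ∈ B, a k * b j * c k = (∑ j ∈ B, b j) * (a k * c k) := by
      rw [Finset.sum_mul]
      exact Finset.sum_congr rfl fun j _ => by ring
    rw [e1, e2, e3]
    ring
  rw [Finset.sum_congr rfl h6, Finset.sum_add_distrib, Finset.sum_add_distrib,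
    Finset.sum_add_distrib, Finset.sum_add_distrib, ← Finset.mul_sum, ← Finset.mul_sum,
    ← Finset.mul_sum, ← Finset.mul_sum, ← Finset.mul_sum]
  ring

/-- The expectation of a product of three entries. -/
theorem ent3 (mo5 : MO5Stmt) (B : Finset (Fin n)) (c : Fin 3 → Fin n → ℝ) (i j k : Fin n) :
    ∫ A : UB B, TB B (A : UU n) (c 0) i * TB B (A : UU n) (c 1) j * TB B (A : UU n) (c 2) k
      ∂(haarB B) =
    rb B (fun k' => rb B (fun j' => rb B (fun i' =>
      mom B i' j' k' * (c 0 i' * c 1 j' * c 2 k')) i) j) k := by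
  rcases B.eq_empty_or_nonempty with rfl | hB
  · have h1 : ∀ (A : UU n) (v : Fin n → ℝ) (x : Fin n), TB (∅ : Finset (Fin n)) A v x = v x :=
      fun A v x => TB_not (Finset.notMem_empty x) A v
    simp only [h1, rb, mom, Finset.notMem_empty, if_false, one_mul]
    exact int_const _ _
  have hb := B.min'_mem hB
  obtain ⟨E1, -, -⟩ := mo5 n B (B.min' hB) hb (c 0) (c 1) (c 2)
  obtain ⟨E1', -, -⟩ := mo5 n B (B.min' hB) hb (c 1) (c 1) (c 2)
  obtain ⟨E1'', -, -⟩ := mo5 n B (B.min' hB) hb (c 2) (c 1) (c 2)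
  obtain ⟨-, E2, E3⟩ := mo5 n B (B.min' hB) hb (c 0) (c 1) (c 2)
  obtain ⟨-, E2', -⟩ := mo5 n B (B.min' hB) hb (c 0) (c 2) (c 2)
  obtain ⟨-, E2'', -⟩ := mo5 n B (B.min' hB) hb (c 1) (c 2) (c 2)
  by_cases hi : i ∈ B <;> by_cases hj : j ∈ B <;> by_cases hk : k ∈ B
  · -- all three
    simp only [TB_mem hB hi, TB_mem hB hj, TB_mem hB hk, rb, if_pos hi, if_pos hj, if_pos hk]
    rw [E3, ← sum_m6, Finset.sum_div]
    refine Finset.sum_congr rfl fun k' hk' => ?_
    rw [Finset.sum_div]
    refine Finset.sum_congr rfl fun j' hj' => ?_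
    rw [Finset.sum_div]
    refine Finset.sum_congr rfl fun i' hi' => ?_
    simp only [mom, if_pos hi', if_pos hj', if_pos hk']
    ring
  · simp only [TB_mem hB hi, TB_mem hB hj, TB_not hk, rb, if_pos hi, if_pos hj, if_neg hk]
    rw [integral_mul_const, E2, ← sum_m2, Finset.sum_div, Finset.sum_mul]
    refine Finset.sum_congr rfl fun j' hj' => ?_
    rw [Finset.sum_div, Finset.sum_mul]
    refine Finset.sum_congr rfl fun i' hi' => ?_
    simp only [mom, if_pos hi', if_pos hj', if_neg hk]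
    ring
  · simp only [TB_mem hB hi, TB_not hj, TB_mem hB hk, rb, if_pos hi, if_neg hj, if_pos hk]
    have h1 : ∀ A : UB B, (∑ x ∈ B, ‖((A : UU n) : Matrix (Fin n) (Fin n) ℂ) x (B.min' hB)‖ ^ 2 *
        c 0 x) * c 1 j * (∑ x ∈ B, ‖((A : UU n) : Matrix (Fin n) (Fin n) ℂ) x (B.min' hB)‖ ^ 2 *
        c 2 x) = (∑ x ∈ B, ‖((A : UU n) : Matrix (Fin n) (Fin n) ℂ) x (B.min' hB)‖ ^ 2 *
        c 0 x) * (∑ x ∈ B, ‖((A : UU n) : Matrix (Fin n) (Fin n) ℂ) x (B.min' hB)‖ ^ 2 *
        c 2 x) * c 1 j := fun A => by ring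
    simp only [h1]
    rw [integral_mul_const, E2', ← sum_m2, Finset.sum_div, Finset.sum_mul]
    refine Finset.sum_congr rfl fun k' hk' => ?_
    rw [Finset.sum_div, Finset.sum_mul]
    refine Finset.sum_congr rfl fun i' hi' => ?_
    simp only [mom, if_pos hi', if_neg hj, if_pos hk']
    ring
  · simp only [TB_mem hB hi, TB_not hj, TB_not hk, rb, if_pos hi, if_neg hj, if_neg hk]
    rw [integral_mul_const, integral_mul_const, E1, Finset.sum_div, Finset.sum_mul,
      Finset.sum_mul]
    refine Finset.sum_congr rfl fun i' hi' => ?_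
    simp only [mom, if_pos hi', if_neg hj, if_neg hk]
    ring
  · simp only [TB_not hi, TB_mem hB hj, TB_mem hB hk, rb, if_neg hi, if_pos hj, if_pos hk]
    have h1 : ∀ A : UB B, c 0 i * (∑ x ∈ B, ‖((A : UU n) : Matrix (Fin n) (Fin n) ℂ) x
        (B.min' hB)‖ ^ 2 * c 1 x) * (∑ x ∈ B, ‖((A : UU n) : Matrix (Fin n) (Fin n) ℂ) x
        (B.min' hB)‖ ^ 2 * c 2 x) = (∑ x ∈ B, ‖((A : UU n) : Matrix (Fin n) (Fin n) ℂ) x
        (B.min' hB)‖ ^ 2 * c 1 x) * (∑ x ∈ B, ‖((A : UU n) : Matrix (Fin n) (Fin n) ℂ) x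
        (B.min' hB)‖ ^ 2 * c 2 x) * c 0 i := fun A => by ring
    simp only [h1]
    rw [integral_mul_const, E2'', ← sum_m2, Finset.sum_div, Finset.sum_mul]
    refine Finset.sum_congr rfl fun k' hk' => ?_
    rw [Finset.sum_div, Finset.sum_mul]
    refine Finset.sum_congr rfl fun j' hj' => ?_
    simp only [mom, if_neg hi, if_pos hj', if_pos hk']
    ring
  · simp only [TB_not hi, TB_mem hB hj, TB_not hk, rb, if_neg hi, if_pos hj, if_neg hk]
    rw [integral_mul_const, integral_const_mul, E1', Finset.sum_div, Finset.mul_sum,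
      Finset.sum_mul]
    refine Finset.sum_congr rfl fun j' hj' => ?_
    simp only [mom, if_neg hi, if_pos hj', if_neg hk]
    ring
  · simp only [TB_not hi, TB_not hj, TB_mem hB hk, rb, if_neg hi, if_neg hj, if_pos hk]
    rw [integral_const_mul, E1'', Finset.sum_div, Finset.mul_sum]
    refine Finset.sum_congr rfl fun k' hk' => ?_
    simp only [mom, if_neg hi, if_neg hj, if_pos hk']
    ring
  · simp only [TB_not hi, TB_not hj, TB_not hk, rb, if_neg hi, if_neg hj, if_neg hk, mom, one_mul]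
    exact int_const _ _

theorem av4 (mo5 : MO5Stmt) : AV4Stmt := by
  intro n B φ c
  have hc : ∀ (s : Fin 3) (i : Fin n), Continuous fun A : UB B => TB B (A : UU n) (c s) i :=
    fun s i => (continuous_apply i).comp (continuous_TB B (c s))
  have hci : ∀ i j k, Continuous fun A : UB B => φ i j k *
      (TB B (A : UU n) (c 0) i * TB B (A : UU n) (c 1) j * TB B (A : UU n) (c 2) k) :=
    fun i j k => continuous_const.mul (((hc 0 i).mul (hc 1 j)).mul (hc 2 k))
  have h1 : ∫ A : UB B, tri3 φ (fun s => TB B (A : UU n) (c s)) ∂(haarB B) =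
      ∑ i, ∑ j, ∑ k, φ i j k * ∫ A : UB B, TB B (A : UU n) (c 0) i * TB B (A : UU n) (c 1) j *
        TB B (A : UU n) (c 2) k ∂(haarB B) := by
    unfold tri3
    rw [integral_finsetSum _ fun i _ => int_cont B
      (continuous_finsetSum _ fun j _ => continuous_finsetSum _ fun k _ => hci i j k)]
    refine Finset.sum_congr rfl fun i _ => ?_
    rw [integral_finsetSum _ fun j _ => int_cont B (continuous_finsetSum _ fun k _ => hci i j k)]
    refine Finset.sum_congr rfl fun j _ => ?_
    rw [integral_finsetSum _ fun k _ => int_cont B (hci i j k)]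
    refine Finset.sum_congr rfl fun k _ => ?_
    rw [integral_const_mul]
  rw [h1]
  have h2 : tri3 (p3 B φ) c = ∑ i, ∑ j, ∑ k, mom B i j k * (c 0 i * c 1 j * c 2 k) *
      rb B (fun i' => rb B (fun j' => rb B (fun k' => φ i' j' k') k) j) i := by
    unfold tri3 p3
    refine Finset.sum_congr rfl fun i _ => Finset.sum_congr rfl fun j _ =>
      Finset.sum_congr rfl fun k _ => ?_
    ring
  rw [h2, rb_adj3 B (fun i j k => mom B i j k * (c 0 i * c 1 j * c 2 k)) φ]
  refine Finset.sum_congr rfl fun i _ => Finset.sum_congr rfl fun j _ =>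
    Finset.sum_congr rfl fun k _ => ?_
  rw [ent3 mo5 B c i j k]
  ring

end Pool.Agent.BSE.H60d
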