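import Pool.Agent.BSE.Stmts5

/-!
# BSE, stage 3, row SU3: level 3, not totally symmetric, assembly
-/

set_option autoImplicit false

namespace Pool.Agent.BSE.H60d

open Pool.Agent.BSE Pool.Agent.Helper64_FR Finset MeasureTheory

variable {n : ℕ}

theorem tri3_single (ψ : Fin n → Fin n → Fin n → ℝ) (i j k : Fin n) :
    tri3 ψ ![Pi.single i 1, Pi.single j 1, Pi.single k 1] = ψ i j k := by
  unfold tri3
  rw [Finset.sum_eq_single i, Finset.sum_eq_single j, Finset.sum_eq_single k]
  · simp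
  · intro b _ hb
    simp [Pi.single_apply, hb]
  · intro h
    exact absurd (Finset.mem_univ k) h
  · intro b _ hb
    simp [Pi.single_apply, hb]
  · intro h
    exact absurd (Finset.mem_univ j) h
  · intro b _ hb
    simp [Pi.single_apply, hb]
  · intro h
    exact absurd (Finset.mem_univ i) h

theorem m6_pos (i j k : Fin n) : 0 < m6 i j k := by
  unfold m6
  split_ifs <;> norm_num

theorem lin1 {w : Finset (Fin n) → ℝ} {μ : ℝ}
    (hV : ∀ y : Fin n → ℝ, μ * vb univ y ≤ ∑ B : Finset (Fin n), w B * vb B y)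
    (g : Fin n → Fin n → ℝ) :
    μ * ∑ y, vb univ (g y) ≤ ∑ B : Finset (Fin n), w B * ∑ y, vb B (g y) := by
  calc μ * ∑ y, vb univ (g y) = ∑ y, μ * vb univ (g y) := Finset.mul_sum _ _ _
    _ ≤ ∑ y, ∑ B : Finset (Fin n), w B * vb B (g y) := Finset.sum_le_sum fun y _ => hV (g y)
    _ = ∑ B : Finset (Fin n), ∑ y, w B * vb B (g y) := Finset.sum_comm
    _ = ∑ B : Finset (Fin n), w B * ∑ y, vb B (g y) :=
        Finset.sum_congr rfl fun B _ => (Finset.mul_sum _ _ _).symm

theorem lin2 {w : Finset (Fin n) → ℝ} {μ : ℝ}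
    (hV : ∀ y : Fin n → ℝ, μ * vb univ y ≤ ∑ B : Finset (Fin n), w B * vb B y)
    (g : Fin n → Fin n → Fin n → ℝ) :
    μ * ∑ y, ∑ z, vb univ (g y z) ≤ ∑ B : Finset (Fin n), w B * ∑ y, ∑ z, vb B (g y z) := by
  calc μ * ∑ y, ∑ z, vb univ (g y z) = ∑ y, μ * ∑ z, vb univ (g y z) := Finset.mul_sum _ _ _
    _ ≤ ∑ y, ∑ B : Finset (Fin n), w B * ∑ z, vb B (g y z) :=
        Finset.sum_le_sum fun y _ => lin1 hV (g y)
    _ = ∑ B : Finset (Fin n), ∑ y, w B * ∑ z, vb B (g y z) := Finset.sum_comm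
    _ = ∑ B : Finset (Fin n), w B * ∑ y, ∑ z, vb B (g y z) :=
        Finset.sum_congr rfl fun B _ => (Finset.mul_sum _ _ _).symm

theorem no3_pos {φ : Fin n → Fin n → Fin n → ℝ} {i j k : Fin n} (h : φ i j k ≠ 0) :
    0 < no3 φ := by
  have hnn : ∀ i j k, 0 ≤ nF φ i j k * φ i j k := by
    intro i j k
    have h1 : nF φ i j k * φ i j k = φ i j k ^ 2 / m6 i j k := by
      unfold nF
      ring
    rw [h1]
    exact div_nonneg (sq_nonneg _) (m6_pos i j k).le
  have hp : 0 < nF φ i j k * φ i j k := by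
    have h1 : nF φ i j k * φ i j k = φ i j k ^ 2 / m6 i j k := by
      unfold nF
      ring
    rw [h1]
    exact div_pos (by positivity) (m6_pos i j k)
  unfold no3
  have s3 : nF φ i j k * φ i j k ≤ ∑ k', nF φ i j k' * φ i j k' :=
    Finset.single_le_sum (f := fun k' => nF φ i j k' * φ i j k') (fun k' _ => hnn i j k')
      (Finset.mem_univ k)
  have s2 : ∑ k', nF φ i j k' * φ i j k' ≤ ∑ j', ∑ k', nF φ i j' k' * φ i j' k' :=
    Finset.single_le_sum (f := fun j' => ∑ k', nF φ i j' k' * φ i j' k')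
      (fun j' _ => Finset.sum_nonneg fun k' _ => hnn i j' k') (Finset.mem_univ j)
  have s1 : ∑ j', ∑ k', nF φ i j' k' * φ i j' k' ≤
      ∑ i', ∑ j', ∑ k', nF φ i' j' k' * φ i' j' k' :=
    Finset.single_le_sum (f := fun i' => ∑ j', ∑ k', nF φ i' j' k' * φ i' j' k')
      (fun i' _ => Finset.sum_nonneg fun j' _ => Finset.sum_nonneg fun k' _ => hnn i' j' k')
      (Finset.mem_univ i)
  linarith

theorem alt3_sq {φ : Fin n → Fin n → Fin n → ℝ} (h : Alt3 φ) (i j k : Fin n) :
    nF φ i j k * φ i j k = φ i j k ^ 2 := by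
  obtain ⟨h1, h2, -⟩ := h
  have e1 : ∀ a b, φ a a b = 0 := fun a b => by
    have := h1 a a b
    linarith
  have e2 : ∀ a b, φ a b b = 0 := fun a b => by
    have := h2 a b b
    linarith
  have e3 : ∀ a b, φ a b a = 0 := fun a b => by
    rw [h1 a b a, e2 b a, neg_zero]
  unfold nF
  by_cases hij : i = j
  · subst hij
    rw [e1]
    simp
  by_cases hjk : j = k
  · subst hjk
    rw [e2]
    simp
  by_cases hik : i = k
  · subst hik
    rw [e3]
    simp
  have hm : m6 i j k = 1 := by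
    unfold m6
    simp [hij, hjk, hik]
  rw [hm]
  ring

theorem su3 (rf4 : RF4Stmt) (av4 : AV4Stmt) (dvb : DVBStmt) (emx : EMXStmt) (emt : EMTStmt)
    (eab : EABStmt) : SU3Stmt := by
  intro n w hw μ x f hO hR hne hE hsym
  obtain ⟨φ, hφ, ⟨i0, j0, k0, h0⟩, hc⟩ := rf4 n w x f hR hne hE hsym
  have hn : 0 < n := i0.pos
  have heq : ∀ i j k, ∑ B : Finset (Fin n), w B * (φ i j k - p3 B φ i j k) = x * φ i j k := by
    intro i j k
    have h := hc ![Pi.single i 1, Pi.single j 1, Pi.single k 1]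
    rw [tri3_single] at h
    rw [← h]
    refine Finset.sum_congr rfl fun B _ => ?_
    rw [av4 n B φ, tri3_single]
  have hen : ∑ B : Finset (Fin n), w B * en3 B φ = x * no3 φ := by
    have h1 : ∀ B : Finset (Fin n), w B * en3 B φ =
        ∑ i, ∑ j, ∑ k, nF φ i j k * (w B * (φ i j k - p3 B φ i j k)) := by
      intro B
      unfold en3
      simp only [Finset.mul_sum]
      refine Finset.sum_congr rfl fun i _ => Finset.sum_congr rfl fun j _ =>
        Finset.sum_congr rfl fun k _ => ?_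
      ring
    simp only [h1]
    rw [Finset.sum_comm]
    unfold no3
    rw [Finset.mul_sum]
    refine Finset.sum_congr rfl fun i _ => ?_
    rw [Finset.sum_comm, Finset.mul_sum]
    refine Finset.sum_congr rfl fun j _ => ?_
    rw [Finset.sum_comm, Finset.mul_sum]
    refine Finset.sum_congr rfl fun k _ => ?_
    rw [← Finset.mul_sum, heq i j k]
    ring
  have hV : ∀ y : Fin n → ℝ, μ * vb univ y ≤ ∑ B : Finset (Fin n), w B * vb B y := by
    intro y
    have h := hO y
    rw [dvb n univ y] at h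
    simp only [dvb n] at h
    exact h
  have hpos := no3_pos h0
  refine le_of_mul_le_mul_right ?_ hpos
  rw [← hen]
  rcases hφ with hM | hA
  · rw [← emt n hn φ hM]
    have hle : ∑ B : Finset (Fin n), w B * ce3 B φ ≤ ∑ B : Finset (Fin n), w B * en3 B φ :=
      Finset.sum_le_sum fun B _ => mul_le_mul_of_nonneg_left (emx n B φ hM) (hw B)
    refine le_trans ?_ hle
    have a1 := lin2 hV fun y z x => nF φ x y z
    have a2 := lin1 hV fun y x => nF φ x y y
    have a3 := lin2 hV fun y z x => nF φ y x z - nF φ z x y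
    have e : ∑ B : Finset (Fin n), w B * ce3 B φ =
        3 / 4 * ∑ B : Finset (Fin n), w B * ∑ y, ∑ z, vb B (fun x => nF φ x y z) +
        (3 / 2 + 3 / (4 * (n : ℝ))) * ∑ B : Finset (Fin n), w B * ∑ y, vb B (fun x => nF φ x y y) +
        1 / 12 * ∑ B : Finset (Fin n), w B * ∑ y, ∑ z, vb B (fun x => nF φ y x z - nF φ z x y) := by
      rw [Finset.mul_sum, Finset.mul_sum, Finset.mul_sum, ← Finset.sum_add_distrib,
        ← Finset.sum_add_distrib]
      refine Finset.sum_congr rfl fun B _ => ?_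
      unfold ce3
      ring
    rw [e]
    unfold ce3
    have hk : (0 : ℝ) ≤ 3 / 2 + 3 / (4 * (n : ℝ)) := by positivity
    nlinarith [mul_le_mul_of_nonneg_left a2 hk]
  · have hle : ∑ B : Finset (Fin n), w B * ∑ y, ∑ z, vb B (fun x => φ x y z) ≤
        ∑ B : Finset (Fin n), w B * en3 B φ :=
      Finset.sum_le_sum fun B _ => mul_le_mul_of_nonneg_left (eab n B φ hA) (hw B)
    refine le_trans ?_ hle
    refine le_trans (le_of_eq ?_) (lin2 hV fun y z x => φ x y z)
    have h1 : ∀ y z, vb univ (fun x => φ x y z) = ∑ x, φ x y z ^ 2 := by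
      intro y z
      unfold vb
      rw [hA.2.2 y z]
      simp
    simp only [h1]
    have h2 : no3 φ = ∑ y, ∑ z, ∑ x, φ x y z ^ 2 := by
      unfold no3
      simp only [alt3_sq hA]
      rw [Finset.sum_comm]
      refine Finset.sum_congr rfl fun y _ => ?_
      rw [Finset.sum_comm]
    rw [h2]

end Pool.Agent.BSE.H60d
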